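import Pool.Agent.H20.ER3.Lib

/-!
# MP_816b90_co: row Q8

Two touching roots at corners of different rungs and of different triangles of a minimal odd prism
of the mixed graph, all rungs of length one.

With `A = g 0 1`, `B = g 2 1`, `C = g 2 0`, `D = g 1 0` the set `F` is a path from `f1` to `fk`,
the vertex `fk` is the only neighbour of `C` and of `D` in `F`, the vertex `f1` is the only
neighbour of `A` in `F`, and the set `F'` is a path from `g1` to `gl`, the vertex `gl` is the only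
neighbour of `A` and of `B` in `F'`, the vertex `g1` is the only neighbour of `D` in `F'`. The
context `K8` collects these facts; it is symmetric.
-/

set_option autoImplicit false

namespace Pool.Agent.H74.ER3

open Pool.Agent.H48.ER Pool.Agent.H52.ER2 Pool.Agent.H66.ER2 Pool.Agent.H20.ER3

variable {V : Type} {G : SimpleGraph V} {R : Set V}

/-- a path in `R` and its two attachments outside of `R`: the path is even -/
theorem ends_even {p : ℕ} {x y c d : V} {Z : Set V} (ev : EvS G R) (h : IP G p x y Z)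
    (hZ : Z ⊆ R) (hc : c ∉ R) (hd : d ∉ R) (hcd : ¬ G.Adj c d) (hne : c ≠ d)
    (h1 : ∀ w ∈ Z, G.Adj c w ↔ w = x) (h2 : ∀ w ∈ Z, G.Adj d w ↔ w = y) : Even p := by
  have a := h.cons (fun hh => hc (hZ hh)) h1
  have hdn : d ∉ insert c Z := by
    rintro (e | e)
    · exact hne e.symm
    · exact hd (hZ e)
  have b := a.snoc hdn (by
    rintro w (rfl | hw)
    · constructor
      · intro e; exact absurd e.symm hcd
      · intro e; exact absurd (hZ (e ▸ h.right_mem)) hc
    · exact h2 w hw)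
  have e := ev _ _ _ _ b hc hd (by omega) (by
    rintro w (rfl | rfl | hw)
    · exact Or.inr (Or.inl rfl)
    · exact Or.inl rfl
    · exact Or.inr (Or.inr (hZ hw)))
  obtain ⟨k, hk⟩ := e
  exact ⟨k - 1, by omega⟩

/-- the context -/
structure K8 (G : SimpleGraph V) (R : Set V) (A B C D : V) (F F' : Set V) (m m' : ℕ)
    (f1 fk g1 gl : V) : Prop where
  noh : NOH G
  ev : EvS G R
  aR : A ∉ R
  bR : B ∉ R
  cR : C ∉ R
  dR : D ∉ R
  ab : G.Adj A B
  bc : G.Adj B C
  cd : G.Adj C D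
  nac : ¬ G.Adj A C
  nad : ¬ G.Adj A D
  nbd : ¬ G.Adj B D
  eac : A ≠ C
  ead : A ≠ D
  ebd : B ≠ D
  sF : F ⊆ R
  sF' : F' ⊆ R
  ipF : IP G m f1 fk F
  ipF' : IP G m' g1 gl F'
  hAF : ∀ w ∈ F, G.Adj A w ↔ w = f1
  hBF : ∀ w ∈ F, ¬ G.Adj B w
  hCF : ∀ w ∈ F, G.Adj C w ↔ w = fk
  hDF : ∀ w ∈ F, G.Adj D w ↔ w = fk
  hAF' : ∀ w ∈ F', G.Adj A w ↔ w = gl
  hBF' : ∀ w ∈ F', G.Adj B w ↔ w = gl
  hCF' : ∀ w ∈ F', ¬ G.Adj C w
  hDF' : ∀ w ∈ F', G.Adj D w ↔ w = g1
  tch : Tch G F F'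

section

variable {A B C D f1 fk g1 gl : V} {F F' : Set V} {m m' : ℕ}

theorem K8.symm (h : K8 G R A B C D F F' m m' f1 fk g1 gl) :
    K8 G R D C B A F' F m' m g1 gl f1 fk where
  noh := h.noh
  ev := h.ev
  aR := h.dR
  bR := h.cR
  cR := h.bR
  dR := h.aR
  ab := h.cd.symm
  bc := h.bc.symm
  cd := h.ab.symm
  nac := fun e => h.nbd e.symm
  nad := fun e => h.nad e.symm
  nbd := fun e => h.nac e.symm
  eac := h.ebd.symm
  ead := h.ead.symm
  ebd := h.eac.symm
  sF := h.sF'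
  sF' := h.sF
  ipF := h.ipF'
  ipF' := h.ipF
  hAF := h.hDF'
  hBF := h.hCF'
  hCF := h.hBF'
  hDF := h.hAF'
  hAF' := h.hDF
  hBF' := h.hCF
  hCF' := h.hBF
  hDF' := h.hAF
  tch := by
    obtain ⟨f, hf, f', hf', e⟩ := h.tch
    exact ⟨f', hf', f, hf, e.elim (fun e => Or.inl e.symm) fun e => Or.inr e.symm⟩

theorem K8.fk_nm (h : K8 G R A B C D F F' m m' f1 fk g1 gl) : fk ∉ F' := fun e =>
  h.hCF' fk e ((h.hCF fk h.ipF.right_mem).2 rfl)

/-- the only neighbour of `C` on a path from `fk` to `gl` -/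
theorem K8.onC (h : K8 G R A B C D F F' m m' f1 fk g1 gl) {w : V} (hw : w ∈ F ∪ F') :
    G.Adj C w ↔ w = fk := by
  constructor
  · intro e
    rcases hw with hw | hw
    · exact (h.hCF w hw).1 e
    · exact absurd e (h.hCF' w hw)
  · rintro rfl
    exact (h.hCF w h.ipF.right_mem).2 rfl

theorem K8.onD (h : K8 G R A B C D F F' m m' f1 fk g1 gl) {w : V} (hw : w ∈ F ∪ F') :
    G.Adj D w ↔ w = fk ∨ w = g1 := by
  constructor
  · intro e
    rcases hw with hw | hw
    · exact Or.inl ((h.hDF w hw).1 e)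
    · exact Or.inr ((h.hDF' w hw).1 e)
  · rintro (rfl | rfl)
    · exact (h.hDF w h.ipF.right_mem).2 rfl
    · exact (h.hDF' w h.ipF'.left_mem).2 rfl

/-- steps 1 and 2: parity, and the vertex `g1` -/
theorem K8.step12 (h : K8 G R A B C D F F' m m' f1 fk g1 gl) {p : ℕ} {Z : Set V}
    (hZ : IP G p fk gl Z) (hs : Z ⊆ F ∪ F') : Odd p ∧ g1 ∈ Z := by
  have hR : Z ⊆ R := fun w hw => (hs hw).elim (fun e => h.sF e) fun e => h.sF' e
  have hne : fk ≠ gl := fun e => h.fk_nm (e ▸ h.ipF'.right_mem)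
  have hp : 1 ≤ p := by
    rcases Nat.eq_zero_or_pos p with e | e
    · subst e
      exact absurd hZ.eq_of_zero.1 hne
    · exact e
  have onB : ∀ w ∈ Z, G.Adj B w ↔ w = gl := fun w hw => h.symm.onC (hs hw).symm
  have a := hZ.cons (u := C) (fun e => h.cR (hR e)) (fun w hw => h.onC (hs hw))
  have hodd : Even (p + 1) := by
    refine h.noh _ _ _ B _ a (by omega) ?_ h.bc ((onB gl hZ.right_mem).2 rfl) ?_
    · rintro (e | e)
      · exact h.bc.ne e
      · exact h.bR (hR e)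
    · rintro w (rfl | hw) hadj
      · exact Or.inl rfl
      · exact Or.inr ((onB w hw).1 hadj)
  have hod : Odd p := by
    obtain ⟨k, hk⟩ := hodd
    exact ⟨k - 1, by omega⟩
  refine ⟨hod, ?_⟩
  by_contra hg
  have := ends_even (c := D) (d := B) h.ev hZ hR h.dR h.bR (fun e => h.nbd e.symm) h.ebd.symm
    (fun w hw => by
      rw [h.onD (hs hw)]
      constructor
      · rintro (e | e)
        · exact e
        · exact absurd (e ▸ hw) hg
      · exact Or.inl) onB
  exact (Nat.not_even_iff_odd.2 hod) this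

/-- step 3: the vertices `fk` and `g1` are adjacent -/
theorem K8.step3 (hGU : U_GU) (hCON : T_CON) (h : K8 G R A B C D F F' m m' f1 fk g1 gl) :
    G.Adj fk g1 := by
  have hcn : Cn G (F ∪ F') :=
    (hGU V G R F F' h.sF h.sF' (ip_cn h.ipF) (ip_cn h.ipF') h.tch).1
  obtain ⟨p, Z, hZ, hs⟩ := hCON V G _ fk gl hcn (Or.inl h.ipF.right_mem)
    (Or.inr h.ipF'.right_mem)
  obtain ⟨hod, hg⟩ := h.step12 hZ hs
  have hR : Z ⊆ R := fun w hw => (hs hw).elim (fun e => h.sF e) fun e => h.sF' e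
  obtain ⟨i, j, Z1, Z2, h1, h2, hij, hun, hin, _⟩ := hZ.split hg
  have hs1 : Z1 ⊆ Z := by rw [← hun]; exact Set.subset_union_left
  have hs2 : Z2 ⊆ Z := by rw [← hun]; exact Set.subset_union_right
  have hfg : fk ≠ g1 := fun e => h.fk_nm (e ▸ h.ipF'.left_mem)
  have hfk2 : fk ∉ Z2 := by
    intro e
    have : fk ∈ Z1 ∩ Z2 := ⟨h1.left_mem, e⟩
    rw [hin] at this
    exact hfg this
  have hj : Even j := ends_even (c := D) (d := B) h.ev h2 (hs2.trans hR) h.dR h.bR
    (fun e => h.nbd e.symm) h.ebd.symm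
    (fun w hw => by
      rw [h.onD (hs (hs2 hw))]
      constructor
      · rintro (e | e)
        · exact absurd (e ▸ hw) hfk2
        · exact e
      · exact Or.inr) (fun w hw => h.symm.onC (hs (hs2 hw)).symm)
  have hi : Odd i := by
    obtain ⟨k, hk⟩ := hod
    obtain ⟨l, hl⟩ := hj
    exact ⟨k - l, by omega⟩
  by_cases h2i : 2 ≤ i
  · exfalso
    have := h.noh _ _ _ D _ h1 h2i (fun e => h.dR (hR (hs1 e)))
      ((h.onD (hs hZ.left_mem)).2 (Or.inl rfl)) ((h.onD (hs hg)).2 (Or.inr rfl))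
      (fun w hw e => (h.onD (hs (hs1 hw))).1 e)
    exact (Nat.not_even_iff_odd.2 hi) this
  · have : i = 1 := by
      obtain ⟨k, hk⟩ := hi
      omega
    exact h1.adj_iff.2 this

/-- step 4: the path `F` has one vertex -/
theorem K8.step4 (hGU : U_GU) (hCON : T_CON) (h : K8 G R A B C D F F' m m' f1 fk g1 gl) :
    f1 = fk := by
  have hadj := h.step3 hGU hCON
  have hcn : Cn G ({fk} ∪ F') := (hGU V G R {fk} F'
    (Set.singleton_subset_iff.2 (h.sF h.ipF.right_mem)) h.sF' (ip_cn (IP.zero fk))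
    (ip_cn h.ipF') ⟨fk, rfl, g1, h.ipF'.left_mem, Or.inr hadj⟩).1
  obtain ⟨p, Z, hZ, hs⟩ := hCON V G _ fk gl hcn (Or.inl rfl) (Or.inr h.ipF'.right_mem)
  have hs' : Z ⊆ F ∪ F' := fun w hw => (hs hw).elim
    (fun e => Or.inl ((Set.mem_singleton_iff.1 e) ▸ h.ipF.right_mem)) Or.inr
  have hf : f1 ∈ Z := (h.symm.step12 hZ.rev (by rw [Set.union_comm]; exact hs')).2
  rcases hs hf with e | e
  · exact Set.mem_singleton_iff.1 e
  · exfalso
    have h1 : G.Adj A f1 := (h.hAF f1 h.ipF.left_mem).2 rfl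
    have h2 : f1 = gl := (h.hAF' f1 e).1 h1
    exact h.hBF f1 h.ipF.left_mem ((h.hBF' f1 e).2 h2)

/-- step 5: the antihole -/
theorem K8.false (hGU : U_GU) (hCON : T_CON) (h7 : X7 G R)
    (h : K8 G R A B C D F F' m m' f1 fk g1 gl) : False := by
  have hfg := h.step3 hGU hCON
  have e1 := h.step4 hGU hCON
  have e2 := h.symm.step4 hGU hCON
  subst e1
  subst e2
  have fF := h.ipF.left_mem
  have gF := h.ipF'.left_mem
  have hfA : G.Adj A f1 := (h.hAF f1 fF).2 rfl
  have hfB : ¬ G.Adj B f1 := h.hBF f1 fF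
  have hfC : G.Adj C f1 := (h.hCF f1 fF).2 rfl
  have hfD : G.Adj D f1 := (h.hDF f1 fF).2 rfl
  have hgA : G.Adj A g1 := (h.hAF' g1 gF).2 rfl
  have hgB : G.Adj B g1 := (h.hBF' g1 gF).2 rfl
  have hgC : ¬ G.Adj C g1 := h.hCF' g1 gF
  have hgD : G.Adj D g1 := (h.hDF' g1 gF).2 rfl
  have fR := h.sF fF
  have gR := h.sF' gF
  have nAf : A ≠ f1 := hfA.ne
  have nBf : B ≠ f1 := fun e => h.bR (e ▸ fR)
  have nCg : C ≠ g1 := fun e => h.cR (e ▸ gR)
  have c0 : IP Gᶜ 0 g1 g1 {g1} := IP.zero g1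
  have c1 : IP Gᶜ 1 C g1 (insert C {g1}) := c0.cons
    (by rw [Set.mem_singleton_iff]; exact nCg)
    (by
      intro w hw
      rw [Set.mem_singleton_iff.1 hw, SimpleGraph.compl_adj]
      exact ⟨fun _ => rfl, fun _ => ⟨nCg, hgC⟩⟩)
  have c2 : IP Gᶜ 2 A g1 (insert A (insert C {g1})) := c1.cons
    (by
      rintro (e | e)
      · exact h.eac e
      · exact hgA.ne e)
    (by
      rintro w (rfl | hw)
      · rw [SimpleGraph.compl_adj]
        exact ⟨fun _ => rfl, fun _ => ⟨h.eac, h.nac⟩⟩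
      · rw [Set.mem_singleton_iff.1 hw, SimpleGraph.compl_adj]
        exact ⟨fun e => absurd hgA e.2, fun e => absurd e.symm nCg⟩)
  have c3 : IP Gᶜ 3 D g1 (insert D (insert A (insert C {g1}))) := c2.cons
    (by
      rintro (e | e | e)
      · exact h.ead e.symm
      · exact h.cd.ne e.symm
      · exact hgD.ne e)
    (by
      rintro w (rfl | rfl | hw)
      · rw [SimpleGraph.compl_adj]
        exact ⟨fun _ => rfl, fun _ => ⟨h.ead.symm, fun e => h.nad e.symm⟩⟩
      · rw [SimpleGraph.compl_adj]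
        exact ⟨fun e => absurd h.cd.symm e.2, fun e => absurd e.symm h.eac⟩
      · rw [Set.mem_singleton_iff.1 hw, SimpleGraph.compl_adj]
        exact ⟨fun e => absurd hgD e.2, fun e => absurd e.symm hgA.ne⟩)
  have c4 : IP Gᶜ 4 B g1 (insert B (insert D (insert A (insert C {g1})))) := c3.cons
    (by
      rintro (e | e | e | e)
      · exact h.ebd e
      · exact h.ab.ne e.symm
      · exact h.bc.ne e
      · exact hgB.ne e)
    (by
      rintro w (rfl | rfl | rfl | hw)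
      · rw [SimpleGraph.compl_adj]
        exact ⟨fun _ => rfl, fun _ => ⟨h.ebd, h.nbd⟩⟩
      · rw [SimpleGraph.compl_adj]
        exact ⟨fun e => absurd h.ab.symm e.2, fun e => absurd e h.ead⟩
      · rw [SimpleGraph.compl_adj]
        exact ⟨fun e => absurd h.bc e.2, fun e => absurd e h.cd.ne⟩
      · rw [Set.mem_singleton_iff.1 hw, SimpleGraph.compl_adj]
        exact ⟨fun e => absurd hgB e.2, fun e => absurd e.symm hgD.ne⟩)
  have c5 : IP Gᶜ 5 f1 g1 (insert f1 (insert B (insert D (insert A (insert C {g1}))))) := c4.cons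
    (by
      rintro (e | e | e | e | e)
      · exact nBf e.symm
      · exact hfD.ne e.symm
      · exact hfA.ne e.symm
      · exact hfC.ne e.symm
      · exact hfg.ne e)
    (by
      rintro w (rfl | rfl | rfl | rfl | hw)
      · rw [SimpleGraph.compl_adj]
        exact ⟨fun _ => rfl, fun _ => ⟨nBf.symm, fun e => hfB e.symm⟩⟩
      · rw [SimpleGraph.compl_adj]
        exact ⟨fun e => absurd hfD.symm e.2, fun e => absurd e.symm h.ebd⟩
      · rw [SimpleGraph.compl_adj]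
        exact ⟨fun e => absurd hfA.symm e.2, fun e => absurd e h.ab.ne⟩
      · rw [SimpleGraph.compl_adj]
        exact ⟨fun e => absurd hfC.symm e.2, fun e => absurd e.symm h.bc.ne⟩
      · rw [Set.mem_singleton_iff.1 hw, SimpleGraph.compl_adj]
        exact ⟨fun e => absurd hfg e.2, fun e => absurd e.symm hgB.ne⟩)
  refine h7 5 f1 g1 _ c5 le_rfl fR gR ?_
  rintro w (rfl | rfl | rfl | rfl | rfl | hw)
  · exact Or.inl rfl
  · exact Or.inr (Or.inr ⟨h.bR, g1, gR, hgB⟩)
  · exact Or.inr (Or.inr ⟨h.dR, f1, fR, hfD⟩)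
  · exact Or.inr (Or.inr ⟨h.aR, f1, fR, hfA⟩)
  · exact Or.inr (Or.inr ⟨h.cR, f1, fR, hfC⟩)
  · exact Or.inr (Or.inl (Set.mem_singleton_iff.1 hw))

end

/-- (Q8) corners of different rungs, all rungs of length one -/
theorem pf_Q8 (hQC : U_QC) (hQE : U_QE) (hGU : U_GU) (hCON : T_CON) : U_Q8 := by
  intro V _ G R F F' n g hnoh hev h7 hHM hMP g00 g11 hn htch
  obtain ⟨A, D, C, f1, fk, m, gA, gD, gC, sA, sD, sC, hcr⟩ :=
    hQC V False G R F n g hev hHM hMP g00
  -- the second corner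
  let σ : Fin 3 → Fin 3 := fun i => if i = 0 then 1 else if i = 1 then 0 else 2
  have hσ : Function.Injective σ := by decide
  have hM1 := (hQE V False G R n g hMP).1 σ hσ
  have hM2 := (hQE V False G R _ _ hM1).2
  have k00 : (fun i k => g (σ i) (n (σ i) - k)) 0 0 = Sum.inr F' := by
    show g 1 (n 1 - 0) = _
    rw [hn 1]; exact g11
  obtain ⟨D', A', B, g1, gl, m', kD, kA, kB, tD, tA, tB, hcr'⟩ :=
    hQC V False G R F' _ _ hev hHM hM2 k00
  have kD' : g 1 0 = Sum.inl D' := by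
    have : g 1 (n 1 - 1) = Sum.inl D' := kD
    rwa [hn 1] at this
  have kA' : g 0 1 = Sum.inl A' := by
    have : g 0 (n 0 - 0) = Sum.inl A' := kA
    rwa [hn 0] at this
  have kB' : g 2 1 = Sum.inl B := by
    have : g 2 (n 2 - 0) = Sum.inl B := kB
    rwa [hn 2] at this
  have eD : D' = D := Sum.inl.inj (kD'.symm.trans gD)
  have eA : A' = A := Sum.inl.inj (kA'.symm.trans gA)
  subst eD
  subst eA
  have pi := hMP.pi
  have q1 : ∀ i j k l, k ≤ 1 → l ≤ 1 → g i k = g j l → i = j ∧ k = l := fun i j k l hk hl =>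
    pi.inj i j k l (by rw [hn]; exact hk) (by rw [hn]; exact hl)
  have q2 : ∀ i j k l, k ≤ 1 → l ≤ 1 → ((MG G R).Adj (g i k) (g j l) ↔
      (i = j ∧ (k + 1 = l ∨ l + 1 = k)) ∨ (i ≠ j ∧ ((k = 0 ∧ l = 0) ∨ (k = 1 ∧ l = 1)))) := by
    intro i j k l hk hl
    have := pi.adj i j k l (by rw [hn]; exact hk) (by rw [hn]; exact hl)
    rwa [hn, hn] at this
  have hAB : G.Adj A' B := by
    have := (q2 0 2 1 1 le_rfl le_rfl).2 (Or.inr ⟨by decide, Or.inr ⟨rfl, rfl⟩⟩)
    rwa [kA', kB'] at this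
  have hBC : G.Adj B C := by
    have := (q2 2 2 1 0 le_rfl (by omega)).2 (Or.inl ⟨rfl, Or.inr rfl⟩)
    rwa [kB', gC] at this
  have hCD : G.Adj C D' := by
    have := (q2 2 1 0 0 (by omega) (by omega)).2 (Or.inr ⟨by decide, Or.inl ⟨rfl, rfl⟩⟩)
    rwa [gC, kD'] at this
  have nAC : ¬ G.Adj A' C := by
    intro e
    have : (MG G R).Adj (g 0 1) (g 2 0) := by rw [kA', gC]; exact e
    rcases (q2 0 2 1 0 le_rfl (by omega)).1 this with h | h
    · exact absurd h.1 (by decide)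
    · omega
  have nAD : ¬ G.Adj A' D' := by
    intro e
    have : (MG G R).Adj (g 0 1) (g 1 0) := by rw [kA', kD']; exact e
    rcases (q2 0 1 1 0 le_rfl (by omega)).1 this with h | h
    · exact absurd h.1 (by decide)
    · omega
  have nBD : ¬ G.Adj B D' := by
    intro e
    have : (MG G R).Adj (g 2 1) (g 1 0) := by rw [kB', kD']; exact e
    rcases (q2 2 1 1 0 le_rfl (by omega)).1 this with h | h
    · exact absurd h.1 (by decide)
    · omega
  have eAC : A' ≠ C := by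
    intro e
    have := q1 0 2 1 0 le_rfl (by omega) (by rw [kA', gC, e])
    exact absurd this.1 (by decide)
  have eAD : A' ≠ D' := by
    intro e
    have := q1 0 1 1 0 le_rfl (by omega) (by rw [kA', kD', e])
    exact absurd this.1 (by decide)
  have eBD : B ≠ D' := by
    intro e
    have := q1 2 1 1 0 le_rfl (by omega) (by rw [kB', kD', e])
    exact absurd this.1 (by decide)
  have hBF : ∀ w ∈ F, ¬ G.Adj B w := by
    intro w hw e
    have hs : Sees G R F B := ⟨tB.1, sA.2.1, sA.2.2.1, w, hw, e⟩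
    have : (MG G R).Adj (g 2 1) (g 0 0) := by rw [kB', g00]; exact hs
    rcases (q2 2 0 1 0 le_rfl (by omega)).1 this with h | h
    · exact absurd h.1 (by decide)
    · omega
  have hCF' : ∀ w ∈ F', ¬ G.Adj C w := by
    intro w hw e
    have hs : Sees G R F' C := ⟨sC.1, tB.2.1, tB.2.2.1, w, hw, e⟩
    have : (MG G R).Adj (g 2 0) (g 1 1) := by rw [gC, g11]; exact hs
    rcases (q2 2 1 0 1 (by omega) le_rfl).1 this with h | h
    · exact absurd h.1 (by decide)
    · omega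
  have K : K8 G R A' B C D' F F' m m' f1 fk g1 gl :=
    { noh := hnoh, ev := hev, aR := sA.1, bR := tB.1, cR := sC.1, dR := tD.1, ab := hAB
      bc := hBC, cd := hCD, nac := nAC, nad := nAD, nbd := nBD, eac := eAC, ead := eAD, ebd := eBD
      sF := sA.2.1, sF' := tB.2.1, ipF := hcr.ip, ipF' := hcr'.ip, hAF := hcr.hy, hBF := hBF
      hCF := hcr.h3, hDF := hcr.h2, hAF' := hcr'.h2, hBF' := hcr'.h3, hCF' := hCF'
      hDF' := hcr'.hy, tch := htch }
  exact K.false hGU hCON h7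

end Pool.Agent.H74.ER3
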